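import Mathlib

/-! Statements for the lower bounds for the number of elliptic curves of rank at least `3`
and at least `4` (MP_798d7d_nt). -/

set_option autoImplicit false

namespace Pool.Agent.Helper97.RK

/-- the curve `y² = x³ + A x + B` over `ℚ` -/
def cur (A B : ℤ) : WeierstrassCurve ℚ := ⟨0, 0, 0, (A : ℚ), (B : ℚ)⟩

/-- the pairs counted by `N_r(H)` -/
def NS (r : ℕ) (H : ℝ) : Set (ℤ × ℤ) :=
  {p | 4 * p.1 ^ 3 + 27 * p.2 ^ 2 ≠ 0 ∧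
    (∀ q : ℕ, q.Prime → ¬ ((q : ℤ) ^ 4 ∣ p.1 ∧ (q : ℤ) ^ 6 ∣ p.2)) ∧
    (((max (4 * |p.1| ^ 3) (27 * p.2 ^ 2) : ℤ) : ℝ) ≤ H) ∧
    (r : Cardinal) ≤ Module.rank ℤ ((cur p.1 p.2).toAffine).Point}

/-- the product of the primes up to `23` -/
def MM : ℤ := 223092870

/-- abscissa of the base point -/
def cX (k e2 : ℤ) : ℤ := -6 * (k ^ 2 + e2)

/-- ordinate of the base point -/
def cY (k p e3 : ℤ) : ℤ := 3 * k * p - 27 * e3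

/-- first coefficient -/
def cA (k p e2 e4 : ℤ) : ℤ := -(p ^ 2 + 324 * e4 + 27 * (k ^ 2 + e2) ^ 2)

/-- second coefficient -/
def cB (k p e2 e3 e4 : ℤ) : ℤ :=
  cY k p e3 ^ 2 - cX k e2 ^ 3 - cA k p e2 e4 * cX k e2

/-- abscissa of the point belonging to the root `u` of `u ^ 4 + e2 u ^ 2 - e3 u + e4` -/
def rX (k p e2 u : ℤ) : ℤ := p + 18 * u * (u + k) + 3 * (k ^ 2 + e2)

/-- ordinate of the same point -/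
def rY (k p e2 e3 u : ℤ) : ℤ := cY k p e3 + 6 * u * (rX k p e2 u - cX k e2)

/-- coefficients of `(t - u) (t - v) (t ^ 2 + (u + v) t + m) = t ^ 4 + e2 t ^ 2 - e3 t + e4` -/
def e2f (u v m : ℤ) : ℤ := m + u * v - (u + v) ^ 2
def e3f (u v m : ℤ) : ℤ := (u + v) * (m - u * v)
def e4f (u v m : ℤ) : ℤ := u * v * m

/-- HOM: the 2-descent homomorphism into a field containing a root of the cubic. -/
def ST_HOM : Prop := ∀ (K : Type) [Field K] [Algebra ℚ K] (A B : ℤ) (e : K),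
  e ^ 3 + (A : K) * e + (B : K) = 0 → (∀ x : ℚ, algebraMap ℚ K x ≠ e) →
  ∃ φ : ((cur A B).toAffine).Point → K, φ 0 = 1 ∧
    (∀ (x y : ℚ) (h : ((cur A B).toAffine).Nonsingular x y),
      φ (WeierstrassCurve.Affine.Point.some x y h) = algebraMap ℚ K x - e) ∧
    (∀ P, φ P ≠ 0) ∧ ∀ P Q, IsSquare (φ P * φ Q * φ (P + Q))

/-- PAD: Hensel lift of a simple root, and squares modulo `q`. -/
def ST_PAD : Prop := ∀ (q : ℕ) [Fact q.Prime] (A B e : ℤ),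
  ((e ^ 3 + A * e + B : ℤ) : ZMod q) = 0 → ((3 * e ^ 2 + A : ℤ) : ZMod q) ≠ 0 →
  ∃ θ : ℚ_[q], θ ^ 3 + (A : ℚ_[q]) * θ + (B : ℚ_[q]) = 0 ∧
    ∀ (n : ℕ) (x : Fin n → ℤ) (S : Finset (Fin n)),
      IsSquare (∏ i ∈ S, ((x i : ℚ_[q]) - θ)) → IsSquare (∏ i ∈ S, ((x i - e : ℤ) : ZMod q))

/-- LIN: independence from partial sums not divisible by two. -/
def ST_LIN : Prop := ∀ (G : Type) [AddCommGroup G], (∀ g : G, g + g = 0 → g = 0) →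
  ∀ (n : ℕ) (P : Fin n → G),
    (∀ S : Finset (Fin n), S.Nonempty → ∀ Q : G, ∑ i ∈ S, P i ≠ Q + Q) →
    (n : Cardinal) ≤ Module.rank ℤ G

/-- RANK: rank certificate. -/
def ST_RANK : Prop := ∀ (n : ℕ) (A B : ℤ) (x y : Fin n → ℤ),
  (∀ i, y i ^ 2 = x i ^ 3 + A * x i + B) → 4 * A ^ 3 + 27 * B ^ 2 ≠ 0 →
  ∀ p : ℕ, (∀ t : ZMod p, t ^ 3 + (A : ZMod p) * t + (B : ZMod p) ≠ 0) →
  (∀ S : Finset (Fin n), S.Nonempty → ∃ (q : ℕ) (e : ℤ), q.Prime ∧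
    ((e ^ 3 + A * e + B : ℤ) : ZMod q) = 0 ∧ ((3 * e ^ 2 + A : ℤ) : ZMod q) ≠ 0 ∧
    ¬ IsSquare (∏ i ∈ S, ((x i - e : ℤ) : ZMod q))) →
  (n : Cardinal) ≤ Module.rank ℤ ((cur A B).toAffine).Point

/-- the congruence conditions -/
def Good (k p u v m : ℤ) : Prop := (MM ∣ k - 2) ∧ (MM ∣ p - 4) ∧ (MM ∣ u - 1) ∧ (MM ∣ v - 2) ∧
  (MM ∣ m + 18)

/-- the coefficients of the family -/
def fA (k p u v m : ℤ) : ℤ := cA k p (e2f u v m) (e4f u v m)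
def fB (k p u v m : ℤ) : ℤ := cB k p (e2f u v m) (e3f u v m) (e4f u v m)

/-- CERT: consequences of the congruences. -/
def ST_CERT : Prop := ∀ k p u v m : ℤ, Good k p u v m →
  4 * fA k p u v m ^ 3 + 27 * fB k p u v m ^ 2 ≠ 0 ∧ fA k p u v m ≠ 0 ∧
  (∀ q : ℕ, q.Prime → q < 29 → ¬ ((q : ℤ) ∣ fA k p u v m ∧ (q : ℤ) ∣ fB k p u v m)) ∧
  (3 : Cardinal) ≤ Module.rank ℤ ((cur (fA k p u v m) (fB k p u v m)).toAffine).Point ∧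
  ∀ w : ℤ, MM ∣ w - 3 → m = -(w * (u + v + w)) →
    (4 : Cardinal) ≤ Module.rank ℤ ((cur (fA k p u v m) (fB k p u v m)).toAffine).Point

/-- PELL4: the equation `U² - d W² = 4`. -/
def ST_PELL4 : Prop := ∀ d : ℤ, Squarefree d → ∀ T : ℕ, 1 ≤ T →
  {v : ℤ × ℤ | v.1 ^ 2 - d * v.2 ^ 2 = 4 ∧ |v.1| ≤ T}.Finite ∧
  {v : ℤ × ℤ | v.1 ^ 2 - d * v.2 ^ 2 = 4 ∧ |v.1| ≤ T}.ncard ≤ 25 * (Nat.log 2 T + 2)

/-- PELLN: the equation `X² - d Y² = N`. -/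
def ST_PELLN : Prop := ∀ d N : ℤ, Squarefree d → N ≠ 0 → ∀ T : ℕ, 1 ≤ T →
  {v : ℤ × ℤ | v.1 ^ 2 - d * v.2 ^ 2 = N ∧ |v.1| ≤ T ∧ |v.2| ≤ T}.ncard ≤
    N.natAbs.divisors.card ^ 2 * (25 * (Nat.log 2 (2 * (1 + d.natAbs) * T ^ 2) + 2))

/-- CONIC: integral points on a conic `y² = a x² + b x + c`. -/
def ST_CONIC : Prop := ∀ ε : ℝ, 0 < ε → ∀ C : ℕ, ∃ D : ℝ, 0 < D ∧ ∀ n : ℕ, 1 ≤ n → ∀ a b c : ℤ,
  |a| ≤ C * n ^ 6 → |b| ≤ C * n ^ 6 → |c| ≤ C * n ^ 6 → a ≠ 0 → b ^ 2 - 4 * a * c ≠ 0 →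
  {v : ℤ × ℤ | |v.1| ≤ C * n ^ 2 ∧ v.2 ^ 2 = a * v.1 ^ 2 + b * v.1 + c}.Finite ∧
  ({v : ℤ × ℤ | |v.1| ≤ C * n ^ 2 ∧ v.2 ^ 2 = a * v.1 ^ 2 + b * v.1 + c}.ncard : ℝ) ≤
    D * (n : ℝ) ^ ε

/-- the number of integral points in a box -/
noncomputable def Ipt (C n : ℕ) (A B : ℤ) : ℕ :=
  {v : ℤ × ℤ | |v.1| ≤ C * n ^ 2 ∧ v.2 ^ 2 = v.1 ^ 3 + A * v.1 + B}.ncard

/-- EXTRA: few integral points on average over `p`. -/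
def ST_EXTRA : Prop := ∀ ε : ℝ, 0 < ε → ∀ C : ℕ, ∃ D : ℝ, 0 < D ∧ ∀ n : ℕ, 1 ≤ n →
  ∀ k e2 e3 e4 : ℤ, |k| ≤ C * n → |e2| ≤ C * n ^ 2 → |e3| ≤ C * n ^ 3 → |e4| ≤ C * n ^ 4 →
  ∀ P : Finset ℤ, (∀ p ∈ P, |p| ≤ C * n ^ 2) →
  ∑ p ∈ P, (Ipt C n (cA k p e2 e4) (cB k p e2 e3 e4) : ℝ) ≤ D * (n : ℝ) ^ (2 + ε)

open Classical in
/-- SIEVE: few pairs for which `A` is divisible by the square of a prime `≥ 29`. -/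
def ST_SIEVE : Prop := ∀ C : ℕ, ∃ n0 : ℕ, ∀ n : ℕ, n0 ≤ n → ∀ e2 e4 : ℤ,
  2 * ((Finset.range n ×ˢ Finset.range (n ^ 2)).filter (fun t : ℕ × ℕ => ∃ q : ℕ, q.Prime ∧
    29 ≤ q ∧ q ≤ C * n ∧ (q : ℤ) ^ 2 ∣ cA (2 + MM * t.1) (4 + MM * t.2) e2 e4)).card ≤ n ^ 3

/-- MULT: the parameters are determined by the three points. -/
def ST_MULT : Prop := ∀ k p u v m k' p' u' v' m' : ℤ, Good k p u v m → Good k' p' u' v' m' →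
  cX k (e2f u v m) = cX k' (e2f u' v' m') → cY k p (e3f u v m) = cY k' p' (e3f u' v' m') →
  rX k p (e2f u v m) u = rX k' p' (e2f u' v' m') u' →
  rY k p (e2f u v m) (e3f u v m) u = rY k' p' (e2f u' v' m') (e3f u' v' m') u' →
  rX k p (e2f u v m) v = rX k' p' (e2f u' v' m') v' →
  rY k p (e2f u v m) (e3f u v m) v = rY k' p' (e2f u' v' m') (e3f u' v' m') v' →
  k = k' ∧ p = p' ∧ u = u' ∧ v = v' ∧ m = m'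

/-- PTS: the points lie on the curve. -/
def ST_PTS : Prop := ∀ k p e2 e3 e4 : ℤ,
  cY k p e3 ^ 2 = cX k e2 ^ 3 + cA k p e2 e4 * cX k e2 + cB k p e2 e3 e4 ∧
  ∀ u : ℤ, u ^ 4 + e2 * u ^ 2 - e3 * u + e4 = 0 →
    rY k p e2 e3 u ^ 2 = rX k p e2 u ^ 3 + cA k p e2 e4 * rX k p e2 u + cB k p e2 e3 e4

/-- FIN: the theorem. -/
def ST_FIN : Prop := ∀ r : ℕ, (r = 3 ∨ r = 4) → ∀ ε : ℝ, 0 < ε → ∃ H0 : ℝ, ∀ H : ℝ, H0 ≤ H →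
  H ^ ((10 - (r : ℝ)) / 12 - ε) ≤ ((NS r H).ncard : ℝ)

end Pool.Agent.Helper97.RK
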