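import Mathlib
import Pool.Agent.Helper97.RK.Stmts

/-! Sizes and the counting step. -/

set_option autoImplicit false

namespace Pool.Agent.Helper97.RK

theorem fin_bmul {n : ℤ} (_hn : 0 ≤ n) {C D x y : ℤ} {i j : ℕ} (hx : |x| ≤ C * n ^ i)
    (hy : |y| ≤ D * n ^ j) : |x * y| ≤ C * D * n ^ (i + j) := by
  have h1 : 0 ≤ C * n ^ i := (abs_nonneg x).trans hx
  calc |x * y| = |x| * |y| := abs_mul x y
    _ ≤ (C * n ^ i) * (D * n ^ j) := mul_le_mul hx hy (abs_nonneg _) h1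
    _ = C * D * n ^ (i + j) := by ring

theorem fin_badd {n : ℤ} {C D x y : ℤ} {i : ℕ} (hx : |x| ≤ C * n ^ i)
    (hy : |y| ≤ D * n ^ i) : |x + y| ≤ (C + D) * n ^ i := by
  calc |x + y| ≤ |x| + |y| := abs_add_le x y
    _ ≤ C * n ^ i + D * n ^ i := add_le_add hx hy
    _ = (C + D) * n ^ i := by ring

theorem fin_bsub {n : ℤ} {C D x y : ℤ} {i : ℕ} (hx : |x| ≤ C * n ^ i)
    (hy : |y| ≤ D * n ^ i) : |x - y| ≤ (C + D) * n ^ i := by
  rw [sub_eq_add_neg]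
  exact fin_badd hx (by rwa [abs_neg])

theorem fin_bsmul {n : ℤ} {C x c : ℤ} {i : ℕ} (hx : |x| ≤ C * n ^ i) :
    |c * x| ≤ |c| * C * n ^ i := by
  rw [abs_mul, mul_assoc]
  exact mul_le_mul_of_nonneg_left hx (abs_nonneg c)

theorem fin_bmono {n : ℤ} (hn : 0 ≤ n) {C D x : ℤ} {i : ℕ} (hx : |x| ≤ C * n ^ i) (h : C ≤ D) :
    |x| ≤ D * n ^ i :=
  hx.trans (mul_le_mul_of_nonneg_right h (pow_nonneg hn i))

/-- sizes -/
theorem fin_size (C : ℤ) (hC : 1 ≤ C) (n : ℤ) (hn : 0 ≤ n) (k p u v m : ℤ) (hk : |k| ≤ C * n ^ 1)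
    (hp : |p| ≤ C * n ^ 2) (hu : |u| ≤ C * n ^ 1) (hv : |v| ≤ C * n ^ 1) (hm : |m| ≤ C * n ^ 2) :
    |e2f u v m| ≤ (200000 * C ^ 6) * n ^ 2 ∧ |e3f u v m| ≤ (200000 * C ^ 6) * n ^ 3 ∧
    |e4f u v m| ≤ (200000 * C ^ 6) * n ^ 4 ∧ |fA k p u v m| ≤ (200000 * C ^ 6) * n ^ 4 ∧
    |fB k p u v m| ≤ (200000 * C ^ 6) * n ^ 6 ∧
    |cX k (e2f u v m)| ≤ (200000 * C ^ 6) * n ^ 2 ∧
    |rX k p (e2f u v m) u| ≤ (200000 * C ^ 6) * n ^ 2 ∧
    |rX k p (e2f u v m) v| ≤ (200000 * C ^ 6) * n ^ 2 := by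
  have hC0 : 0 ≤ C := by linarith
  have p1 : C ≤ C ^ 2 := by nlinarith
  have p2 : C ^ 2 ≤ C ^ 3 := by nlinarith [pow_pos (show 0 < C by linarith) 2]
  have p3 : C ^ 3 ≤ C ^ 4 := by nlinarith [pow_pos (show 0 < C by linarith) 3]
  have p4 : C ^ 4 ≤ C ^ 5 := by nlinarith [pow_pos (show 0 < C by linarith) 4]
  have p5 : C ^ 5 ≤ C ^ 6 := by nlinarith [pow_pos (show 0 < C by linarith) 5]
  have huv := fin_bmul hn hu hv
  have hs := fin_badd hu hv
  have hss := fin_bmul hn hs hs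
  have he2 : |e2f u v m| ≤ (C + C * C + (C + C) * (C + C)) * n ^ 2 := by
    have h := fin_bsub (fin_badd hm huv) hss
    unfold e2f
    rw [sq (u + v)]
    exact h
  have he2' : |e2f u v m| ≤ (6 * C ^ 2) * n ^ 2 := fin_bmono hn he2 (by linarith)
  have he3 : |e3f u v m| ≤ ((C + C) * (C + C * C)) * n ^ 3 := by
    have h := fin_bmul hn hs (fin_bsub hm huv)
    unfold e3f
    exact h
  have he3' : |e3f u v m| ≤ (4 * C ^ 3) * n ^ 3 := fin_bmono hn he3 (by linarith)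
  have he4 : |e4f u v m| ≤ (C * C * C) * n ^ 4 := by
    have h := fin_bmul hn huv hm
    unfold e4f
    exact h
  have he4' : |e4f u v m| ≤ (C ^ 3) * n ^ 4 := fin_bmono hn he4 (by linarith)
  have hkk := fin_bmul hn hk hk
  have hD : |k ^ 2 + e2f u v m| ≤ (7 * C ^ 2) * n ^ 2 := by
    have h := fin_badd hkk he2'
    rw [← sq k] at h
    exact fin_bmono hn h (by linarith)
  have hX : |cX k (e2f u v m)| ≤ (42 * C ^ 2) * n ^ 2 := by
    have h := fin_bsmul (c := -6) hD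
    unfold cX
    refine fin_bmono hn h ?_
    norm_num
    linarith
  have hDD := fin_bmul hn hD hD
  have hpp := fin_bmul hn hp hp
  have hA : |fA k p u v m| ≤ (1648 * C ^ 4) * n ^ 4 := by
    have h := fin_badd (fin_badd hpp (fin_bsmul (c := 324) he4')) (fin_bsmul (c := 27) hDD)
    have e : fA k p u v m = -(p * p + 324 * e4f u v m + 27 * ((k ^ 2 + e2f u v m) *
        (k ^ 2 + e2f u v m))) := by
      unfold fA cA
      ring
    rw [e, abs_neg]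
    refine fin_bmono hn h ?_
    norm_num
    linarith
  have hY : |cY k p (e3f u v m)| ≤ (111 * C ^ 3) * n ^ 3 := by
    have h := fin_bsub (fin_bsmul (c := 3) (fin_bmul hn hk hp)) (fin_bsmul (c := 27) he3')
    have e : cY k p (e3f u v m) = 3 * (k * p) - 27 * e3f u v m := by
      unfold cY
      ring
    rw [e]
    refine fin_bmono hn h ?_
    norm_num
    linarith
  have hB : |fB k p u v m| ≤ (155625 * C ^ 6) * n ^ 6 := by
    have hXX := fin_bmul hn hX hX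
    have hXXX := fin_bmul hn hXX hX
    have hYY := fin_bmul hn hY hY
    have hAX := fin_bmul hn hA hX
    have h := fin_bsub (i := 6) (fin_bsub (i := 6) hYY hXXX) hAX
    have e : fB k p u v m = cY k p (e3f u v m) * cY k p (e3f u v m) -
        cX k (e2f u v m) * cX k (e2f u v m) * cX k (e2f u v m) -
        fA k p u v m * cX k (e2f u v m) := by
      unfold fB cB fA
      ring
    rw [e]
    refine fin_bmono hn h ?_
    linarith
  have hR : ∀ w : ℤ, |w| ≤ C * n ^ 1 → |rX k p (e2f u v m) w| ≤ (58 * C ^ 2) * n ^ 2 := by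
    intro w hw
    have h := fin_badd (fin_badd hp (fin_bsmul (c := 18) (fin_bmul hn hw (fin_badd hw hk))))
      (fin_bsmul (c := 3) hD)
    have e : rX k p (e2f u v m) w = p + 18 * (w * (w + k)) + 3 * (k ^ 2 + e2f u v m) := by
      unfold rX
      ring
    rw [e]
    refine fin_bmono hn h ?_
    norm_num
    linarith
  have q0 : 0 ≤ C ^ 2 := by positivity
  have q1 : 0 ≤ C ^ 6 := by positivity
  refine ⟨fin_bmono hn he2' ?_, fin_bmono hn he3' ?_, fin_bmono hn he4' ?_, fin_bmono hn hA ?_,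
    fin_bmono hn hB ?_, fin_bmono hn hX ?_, fin_bmono hn (hR u hu) ?_,
    fin_bmono hn (hR v hv) ?_⟩ <;> linarith

theorem fin_nsfin (r : ℕ) (H : ℝ) : (NS r H).Finite := by
  apply Set.Finite.subset (Set.Finite.prod (Set.finite_Icc (-⌈|H|⌉) ⌈|H|⌉)
    (Set.finite_Icc (-⌈|H|⌉) ⌈|H|⌉))
  rintro ⟨a, b⟩ ⟨_, _, h3, _⟩
  have hH : H ≤ (⌈|H|⌉ : ℝ) := (le_abs_self H).trans (Int.le_ceil _)
  have h4 : max (4 * |a| ^ 3) (27 * b ^ 2) ≤ ⌈|H|⌉ := by
    have : (((max (4 * |a| ^ 3) (27 * b ^ 2) : ℤ)) : ℝ) ≤ ((⌈|H|⌉ : ℤ) : ℝ) := h3.trans hH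
    exact_mod_cast this
  have h5 := (le_max_left _ _).trans h4
  have h6 := (le_max_right _ _).trans h4
  have ha0 : 0 ≤ |a| := abs_nonneg a
  have h7 : |a| ≤ 4 * |a| ^ 3 := by
    rcases eq_or_lt_of_le ha0 with h | h
    · rw [← h]; norm_num
    · have h1 : 1 ≤ |a| := h
      nlinarith [sq_nonneg (|a| - 1), mul_nonneg ha0 (sq_nonneg (|a| - 1)), sq_nonneg |a|]
  have h8 : |b| ≤ 27 * b ^ 2 := by
    rw [← sq_abs b]
    rcases eq_or_lt_of_le (abs_nonneg b) with h | h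
    · rw [← h]; norm_num
    · have h1 : 1 ≤ |b| := h
      nlinarith
  rw [Set.mem_prod, Set.mem_Icc, Set.mem_Icc]
  exact ⟨abs_le.1 (h7.trans h5), abs_le.1 (h8.trans h6)⟩

theorem fin_nsmono (r : ℕ) (a b : ℝ) (h : a ≤ b) : NS r a ⊆ NS r b := by
  rintro p ⟨h1, h2, h3, h4⟩
  exact ⟨h1, h2, h3.trans h, h4⟩

/-- the points of a curve in a box -/
def Box (C n : ℕ) (A B : ℤ) : Set (ℤ × ℤ) :=
  {v | |v.1| ≤ C * n ^ 2 ∧ v.2 ^ 2 = v.1 ^ 3 + A * v.1 + B}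

theorem fin_box (C n : ℕ) (A B : ℤ) : (Box C n A B).Finite := by
  set K : ℤ := C * n ^ 2 with hK
  have hK0 : 0 ≤ K := by positivity
  set R : ℤ := K ^ 3 + |A| * K + |B| with hR
  apply Set.Finite.subset (Set.Finite.prod (Set.finite_Icc (-K) K) (Set.finite_Icc (-R) R))
  rintro ⟨x, y⟩ ⟨h1, h2⟩
  simp only at h1 h2
  have h3 : y ^ 2 ≤ R := by
    have e1 : x ^ 3 ≤ K ^ 3 := by
      have : |x| ^ 3 ≤ K ^ 3 := pow_le_pow_left₀ (abs_nonneg x) h1 3
      exact (le_abs_self _).trans (by rw [abs_pow]; exact this)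
    have e2 : A * x ≤ |A| * K := (le_abs_self _).trans (by
      rw [abs_mul]; exact mul_le_mul_of_nonneg_left h1 (abs_nonneg A))
    have e3 : B ≤ |B| := le_abs_self B
    rw [h2]
    linarith
  have h4 : |y| ≤ y ^ 2 := by
    rw [← sq_abs y]
    rcases eq_or_lt_of_le (abs_nonneg y) with h | h
    · rw [← h]; norm_num
    · have h1 : 1 ≤ |y| := h
      nlinarith
  rw [Set.mem_prod, Set.mem_Icc, Set.mem_Icc]
  exact ⟨abs_le.1 h1, abs_le.1 (h4.trans h3)⟩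

end Pool.Agent.Helper97.RK
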