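import Mathlib
import Pool.Agent.Helper97.RK.Fin1

/-! The counting step. -/

set_option autoImplicit false

namespace Pool.Agent.Helper97.RK

/-- the parameters belonging to the indices -/
def kk (t : (ℕ × ℕ)) : ℤ := 2 + MM * t.1
def pp (t : (ℕ × ℕ)) : ℤ := 4 + MM * t.2

/-- the reducedness -/
theorem fin_red (hc : ST_CERT) (C1 n : ℕ) (hn : 1 ≤ n) (hC1 : 1 ≤ C1) (k p u v m : ℤ)
    (hg : Good k p u v m) (hA : |fA k p u v m| ≤ (C1 : ℤ) * n ^ 4)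
    (hbad : ¬ ∃ q : ℕ, q.Prime ∧ 29 ≤ q ∧ q ≤ C1 * n ∧ (q : ℤ) ^ 2 ∣ fA k p u v m) :
    ∀ q : ℕ, q.Prime → ¬ ((q : ℤ) ^ 4 ∣ fA k p u v m ∧ (q : ℤ) ^ 6 ∣ fB k p u v m) := by
  intro q hq hdiv
  obtain ⟨h1, h2, h3, h4, h5⟩ := hc k p u v m hg
  by_cases hq29 : q < 29
  · exact h3 q hq hq29 ⟨(dvd_pow_self _ (by norm_num)).trans hdiv.1,
      (dvd_pow_self _ (by norm_num)).trans hdiv.2⟩
  · apply hbad
    refine ⟨q, hq, by omega, ?_, (pow_dvd_pow _ (by norm_num)).trans hdiv.1⟩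
    have h6 : (q : ℤ) ^ 4 ≤ |fA k p u v m| := Int.le_of_dvd (abs_pos.2 h2)
      ((dvd_abs _ _).2 hdiv.1)
    have h7 : (q : ℤ) ^ 4 ≤ ((C1 * n : ℕ) : ℤ) ^ 4 := by
      refine (h6.trans hA).trans ?_
      push_cast
      rw [mul_pow]
      apply mul_le_mul_of_nonneg_right _ (by positivity)
      have : (1 : ℤ) ≤ C1 := by exact_mod_cast hC1
      calc (C1 : ℤ) = C1 ^ 1 := (pow_one _).symm
        _ ≤ C1 ^ 4 := pow_le_pow_right₀ this (by norm_num)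
    have h8 := lt_of_pow_le_pow_aux h7
    exact_mod_cast h8
where
  lt_of_pow_le_pow_aux {a b : ℕ} (h : (a : ℤ) ^ 4 ≤ (b : ℤ) ^ 4) : (a : ℤ) ≤ b :=
    le_of_pow_le_pow_left₀ (by norm_num) (by positivity) h

/-- membership in the counted set -/
theorem fin_mem (hc : ST_CERT) (r : ℕ) (C1 n : ℕ) (hn : 1 ≤ n) (hC1 : 1 ≤ C1) (k p u v m : ℤ)
    (hg : Good k p u v m) (hA : |fA k p u v m| ≤ (C1 : ℤ) * n ^ 4)
    (hB : |fB k p u v m| ≤ (C1 : ℤ) * n ^ 6)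
    (hr : (r : Cardinal) ≤ Module.rank ℤ ((cur (fA k p u v m) (fB k p u v m)).toAffine).Point)
    (hbad : ¬ ∃ q : ℕ, q.Prime ∧ 29 ≤ q ∧ q ≤ C1 * n ∧ (q : ℤ) ^ 2 ∣ fA k p u v m) :
    (fA k p u v m, fB k p u v m) ∈ NS r ((27 * C1 ^ 3 * n ^ 12 : ℕ) : ℝ) := by
  refine ⟨(hc k p u v m hg).1, fin_red hc C1 n hn hC1 k p u v m hg hA hbad, ?_, hr⟩
  have hC : (1 : ℤ) ≤ C1 := by exact_mod_cast hC1
  have h1 : 4 * |fA k p u v m| ^ 3 ≤ 27 * (C1 : ℤ) ^ 3 * n ^ 12 := by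
    have := pow_le_pow_left₀ (abs_nonneg _) hA 3
    have e : ((C1 : ℤ) * n ^ 4) ^ 3 = C1 ^ 3 * n ^ 12 := by ring
    rw [e] at this
    have h0 : (0 : ℤ) ≤ C1 ^ 3 * n ^ 12 := by positivity
    linarith
  have h2 : 27 * fB k p u v m ^ 2 ≤ 27 * (C1 : ℤ) ^ 3 * n ^ 12 := by
    have := pow_le_pow_left₀ (abs_nonneg _) hB 2
    rw [sq_abs] at this
    have e : ((C1 : ℤ) * n ^ 6) ^ 2 = C1 ^ 2 * n ^ 12 := by ring
    rw [e] at this
    have h3 : (C1 : ℤ) ^ 2 * n ^ 12 ≤ C1 ^ 3 * n ^ 12 := by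
      apply mul_le_mul_of_nonneg_right _ (by positivity)
      exact pow_le_pow_right₀ hC (by norm_num)
    linarith
  have h3 := max_le h1 h2
  have h4 : (((max (4 * |fA k p u v m| ^ 3) (27 * fB k p u v m ^ 2) : ℤ)) : ℝ) ≤
      ((27 * (C1 : ℤ) ^ 3 * n ^ 12 : ℤ) : ℝ) := by exact_mod_cast h3
  refine h4.trans (le_of_eq ?_)
  push_cast
  ring

open Classical in
/-- fibres of the map from parameters to curves -/
theorem fin_fib (hm : ST_MULT) (hpts : ST_PTS) (C1 n : ℕ) (ι : Type) (T : Finset ι)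
    (k p u v m : ι → ℤ) (A B : ℤ)
    (hg : ∀ t ∈ T, Good (k t) (p t) (u t) (v t) (m t))
    (hA : ∀ t ∈ T, fA (k t) (p t) (u t) (v t) (m t) = A)
    (hB : ∀ t ∈ T, fB (k t) (p t) (u t) (v t) (m t) = B)
    (hinj : ∀ t ∈ T, ∀ t' ∈ T, k t = k t' → p t = p t' → u t = u t' → v t = v t' → m t = m t' →
      t = t')
    (hX : ∀ t ∈ T, |cX (k t) (e2f (u t) (v t) (m t))| ≤ (C1 : ℤ) * n ^ 2 ∧
      |rX (k t) (p t) (e2f (u t) (v t) (m t)) (u t)| ≤ (C1 : ℤ) * n ^ 2 ∧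
      |rX (k t) (p t) (e2f (u t) (v t) (m t)) (v t)| ≤ (C1 : ℤ) * n ^ 2) :
    T.card ≤ Ipt C1 n A B ^ 3 := by
  have hfin := fin_box C1 n A B
  have hcard : Ipt C1 n A B = hfin.toFinset.card := by
    unfold Ipt
    exact Set.ncard_eq_toFinset_card _ hfin
  rw [hcard]
  have hgt : ∀ (u v m : ℤ), u ^ 4 + e2f u v m * u ^ 2 - e3f u v m * u + e4f u v m = 0 := by
    intro u v m
    unfold e2f e3f e4f
    ring
  have hgt' : ∀ (u v m : ℤ), v ^ 4 + e2f u v m * v ^ 2 - e3f u v m * v + e4f u v m = 0 := by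
    intro u v m
    unfold e2f e3f e4f
    ring
  have key : T.card ≤ (hfin.toFinset ×ˢ hfin.toFinset ×ˢ hfin.toFinset).card := by
    apply Finset.card_le_card_of_injOn (fun t =>
      ((cX (k t) (e2f (u t) (v t) (m t)), cY (k t) (p t) (e3f (u t) (v t) (m t))),
       (rX (k t) (p t) (e2f (u t) (v t) (m t)) (u t),
        rY (k t) (p t) (e2f (u t) (v t) (m t)) (e3f (u t) (v t) (m t)) (u t)),
       (rX (k t) (p t) (e2f (u t) (v t) (m t)) (v t),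
        rY (k t) (p t) (e2f (u t) (v t) (m t)) (e3f (u t) (v t) (m t)) (v t))))
    · intro t ht
      have ht' : t ∈ T := ht
      have h1 := hpts (k t) (p t) (e2f (u t) (v t) (m t)) (e3f (u t) (v t) (m t))
        (e4f (u t) (v t) (m t))
      have hA' : cA (k t) (p t) (e2f (u t) (v t) (m t)) (e4f (u t) (v t) (m t)) = A := hA t ht'
      have hB' : cB (k t) (p t) (e2f (u t) (v t) (m t)) (e3f (u t) (v t) (m t))
        (e4f (u t) (v t) (m t)) = B := hB t ht'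
      rw [hA', hB'] at h1
      simp only [Finset.coe_product, Set.mem_prod, Finset.mem_coe, Set.Finite.mem_toFinset]
      exact ⟨⟨(hX t ht').1, h1.1⟩, ⟨(hX t ht').2.1, h1.2 _ (hgt _ _ _)⟩,
        ⟨(hX t ht').2.2, h1.2 _ (hgt' _ _ _)⟩⟩
    · intro t ht t' ht' h
      simp only [Prod.mk.injEq] at h
      obtain ⟨⟨a1, a2⟩, ⟨a3, a4⟩, ⟨a5, a6⟩⟩ := h
      obtain ⟨b1, b2, b3, b4, b5⟩ := hm _ _ _ _ _ _ _ _ _ _ (hg t ht) (hg t' ht') a1 a2 a3 a4 a5 a6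
      exact hinj t ht t' ht' b1 b2 b3 b4 b5
  rw [Finset.card_product, Finset.card_product] at key
  calc T.card ≤ _ := key
    _ = _ := by ring

end Pool.Agent.Helper97.RK
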