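import Mathlib
import Pool.Agent.Helper97.RK.Fin2

/-! The counting step. -/

set_option autoImplicit false

namespace Pool.Agent.Helper97.RK

/-- the hypotheses on the family -/
structure FH (r C n : ℕ) (ι : Type) (S : Finset ι) (u v m : ι → ℤ) : Prop where
  hu : ∀ s ∈ S, MM ∣ u s - 1
  hv : ∀ s ∈ S, MM ∣ v s - 2
  hm : ∀ s ∈ S, MM ∣ m s + 18
  bu : ∀ s ∈ S, |u s| ≤ (C : ℤ) * n ^ 1
  bv : ∀ s ∈ S, |v s| ≤ (C : ℤ) * n ^ 1
  bm : ∀ s ∈ S, |m s| ≤ (C : ℤ) * n ^ 2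
  inj : ∀ s ∈ S, ∀ s' ∈ S, u s = u s' → v s = v s' → m s = m s' → s = s'
  rk : ∀ s ∈ S, ∀ k p : ℤ, MM ∣ k - 2 → MM ∣ p - 4 → (r : Cardinal) ≤
    Module.rank ℤ ((cur (fA k p (u s) (v s) (m s)) (fB k p (u s) (v s) (m s))).toAffine).Point

/-- the full index set -/
def FF (n : ℕ) {ι : Type} (S : Finset ι) : Finset ((ℕ × ℕ) × ι) :=
  (Finset.range n ×ˢ Finset.range (n ^ 2)) ×ˢ S

theorem fin_ff (n : ℕ) {ι : Type} (S : Finset ι) : (FF n S).card = n ^ 3 * S.card := by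
  unfold FF
  rw [Finset.card_product, Finset.card_product, Finset.card_range, Finset.card_range]
  ring

theorem fin_good {r C n : ℕ} {ι : Type} {S : Finset ι} {u v m : ι → ℤ} (h : FH r C n ι S u v m)
    (t : (ℕ × ℕ) × ι) (ht : t ∈ FF n S) : Good (kk t.1) (pp t.1) (u t.2) (v t.2) (m t.2) := by
  unfold FF at ht
  rw [Finset.mem_product] at ht
  refine ⟨?_, ?_, h.hu _ ht.2, h.hv _ ht.2, h.hm _ ht.2⟩
  · unfold kk
    exact ⟨t.1.1, by ring⟩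
  · unfold pp
    exact ⟨t.1.2, by ring⟩

theorem fin_kp {C n : ℕ} (hC : 223092880 ≤ C) {ι : Type} {S : Finset ι}
    (t : (ℕ × ℕ) × ι) (ht : t ∈ FF n S) :
    |kk t.1| ≤ (C : ℤ) * n ^ 1 ∧ |pp t.1| ≤ (C : ℤ) * n ^ 2 := by
  unfold FF at ht
  rw [Finset.mem_product, Finset.mem_product, Finset.mem_range, Finset.mem_range] at ht
  obtain ⟨⟨h1, h2⟩, _⟩ := ht
  have c1 : (223092880 : ℤ) ≤ C := by exact_mod_cast hC
  have e1 : ((t.1.1 : ℕ) : ℤ) + 1 ≤ n := by exact_mod_cast h1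
  have e2 : ((t.1.2 : ℕ) : ℤ) + 1 ≤ (n : ℤ) ^ 2 := by exact_mod_cast h2
  have e3 : (0 : ℤ) ≤ t.1.1 := by positivity
  have e4 : (0 : ℤ) ≤ t.1.2 := by positivity
  constructor
  · unfold kk MM
    rw [abs_of_nonneg (by positivity), pow_one]
    have : (223092880 : ℤ) * n ≤ C * n := mul_le_mul_of_nonneg_right c1 (by positivity)
    linarith
  · unfold pp MM
    rw [abs_of_nonneg (by positivity)]
    have : (223092880 : ℤ) * (n : ℤ) ^ 2 ≤ C * (n : ℤ) ^ 2 :=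
      mul_le_mul_of_nonneg_right c1 (by positivity)
    linarith

theorem fin_sz {r C n : ℕ} (hC : 223092880 ≤ C) {ι : Type} {S : Finset ι} {u v m : ι → ℤ}
    (h : FH r C n ι S u v m) (t : (ℕ × ℕ) × ι) (ht : t ∈ FF n S) :
    |e2f (u t.2) (v t.2) (m t.2)| ≤ ((200000 * C ^ 6 : ℕ) : ℤ) * n ^ 2 ∧
    |e3f (u t.2) (v t.2) (m t.2)| ≤ ((200000 * C ^ 6 : ℕ) : ℤ) * n ^ 3 ∧
    |e4f (u t.2) (v t.2) (m t.2)| ≤ ((200000 * C ^ 6 : ℕ) : ℤ) * n ^ 4 ∧
    |fA (kk t.1) (pp t.1) (u t.2) (v t.2) (m t.2)| ≤ ((200000 * C ^ 6 : ℕ) : ℤ) * n ^ 4 ∧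
    |fB (kk t.1) (pp t.1) (u t.2) (v t.2) (m t.2)| ≤ ((200000 * C ^ 6 : ℕ) : ℤ) * n ^ 6 ∧
    |cX (kk t.1) (e2f (u t.2) (v t.2) (m t.2))| ≤ ((200000 * C ^ 6 : ℕ) : ℤ) * n ^ 2 ∧
    |rX (kk t.1) (pp t.1) (e2f (u t.2) (v t.2) (m t.2)) (u t.2)| ≤
      ((200000 * C ^ 6 : ℕ) : ℤ) * n ^ 2 ∧
    |rX (kk t.1) (pp t.1) (e2f (u t.2) (v t.2) (m t.2)) (v t.2)| ≤
      ((200000 * C ^ 6 : ℕ) : ℤ) * n ^ 2 := by
  have h2 : t.2 ∈ S := (Finset.mem_product.1 ht).2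
  obtain ⟨h3, h4⟩ := fin_kp hC t ht
  have hC1 : (1 : ℤ) ≤ C := by
    have : (223092880 : ℤ) ≤ C := by exact_mod_cast hC
    linarith
  have h5 := fin_size C hC1 n (by positivity) _ _ _ _ _ h3 h4 (h.bu _ h2) (h.bv _ h2) (h.bm _ h2)
  push_cast
  exact h5

open Classical in
/-- the bad set is small -/
theorem fin_bad (hs : ST_SIEVE) (C1 : ℕ) : ∃ n0 : ℕ, ∀ n : ℕ, n0 ≤ n → ∀ (ι : Type)
    (S : Finset ι) (u v m : ι → ℤ),
    2 * ((FF n S).filter (fun t => ∃ q : ℕ, q.Prime ∧ 29 ≤ q ∧ q ≤ C1 * n ∧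
      (q : ℤ) ^ 2 ∣ fA (kk t.1) (pp t.1) (u t.2) (v t.2) (m t.2))).card ≤ (FF n S).card := by
  obtain ⟨n0, h0⟩ := hs C1
  refine ⟨n0, ?_⟩
  intro n hn ι S u v m
  have h1 : ((FF n S).filter (fun t => ∃ q : ℕ, q.Prime ∧ 29 ≤ q ∧ q ≤ C1 * n ∧
      (q : ℤ) ^ 2 ∣ fA (kk t.1) (pp t.1) (u t.2) (v t.2) (m t.2))).card ≤
      ∑ s ∈ S, ((Finset.range n ×ˢ Finset.range (n ^ 2)).filter (fun t : ℕ × ℕ => ∃ q : ℕ,
        q.Prime ∧ 29 ≤ q ∧ q ≤ C1 * n ∧ (q : ℤ) ^ 2 ∣ cA (2 + MM * t.1) (4 + MM * t.2)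
          (e2f (u s) (v s) (m s)) (e4f (u s) (v s) (m s)))).card := by
    rw [Finset.card_eq_sum_card_fiberwise (f := fun t => t.2) (t := S)]
    · apply Finset.sum_le_sum
      intro s hs
      apply Finset.card_le_card_of_injOn (fun t => t.1)
      · intro t ht
        have ht' := Finset.mem_coe.1 ht
        rw [Finset.mem_filter, Finset.mem_filter] at ht'
        obtain ⟨⟨ht1, ht2⟩, ht3⟩ := ht'
        unfold FF at ht1
        rw [Finset.mem_product] at ht1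
        refine Finset.mem_coe.2 (Finset.mem_filter.2 ⟨ht1.1, ?_⟩)
        subst ht3
        exact ht2
      · intro t ht t' ht' he
        have a1 := (Finset.mem_filter.1 (Finset.mem_coe.1 ht)).2
        have a2 := (Finset.mem_filter.1 (Finset.mem_coe.1 ht')).2
        exact Prod.ext he (a1.trans a2.symm)
    · intro t ht
      exact (Finset.mem_product.1 (Finset.mem_filter.1 (Finset.mem_coe.1 ht)).1).2
  rw [fin_ff]
  calc 2 * _ ≤ 2 * _ := Nat.mul_le_mul_left 2 h1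
    _ = ∑ s ∈ S, 2 * ((Finset.range n ×ˢ Finset.range (n ^ 2)).filter (fun t : ℕ × ℕ => ∃ q : ℕ,
        q.Prime ∧ 29 ≤ q ∧ q ≤ C1 * n ∧ (q : ℤ) ^ 2 ∣ cA (2 + MM * t.1) (4 + MM * t.2)
          (e2f (u s) (v s) (m s)) (e4f (u s) (v s) (m s)))).card := Finset.mul_sum _ _ _
    _ ≤ ∑ _s ∈ S, n ^ 3 := Finset.sum_le_sum (fun s _ => h0 n hn _ _)
    _ = n ^ 3 * S.card := by rw [Finset.sum_const, smul_eq_mul, mul_comm]

/-- the number of integral points in the box is small on average -/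
theorem fin_avg (he : ST_EXTRA) (r C C1 : ℕ) (hC : 223092880 ≤ C)
    (hC1 : 200000 * C ^ 6 ≤ C1) (ε : ℝ) (hε : 0 < ε) :
    ∃ D : ℝ, 0 < D ∧ ∀ n : ℕ, 1 ≤ n → ∀ (ι : Type) (S : Finset ι) (u v m : ι → ℤ),
    FH r C n ι S u v m →
    ∑ t ∈ FF n S, (Ipt C1 n (fA (kk t.1) (pp t.1) (u t.2) (v t.2) (m t.2))
      (fB (kk t.1) (pp t.1) (u t.2) (v t.2) (m t.2)) : ℝ) ≤ D * (n : ℝ) ^ ε * (FF n S).card := by
  obtain ⟨D, hD, h0⟩ := he ε hε C1
  refine ⟨D, hD, ?_⟩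
  intro n hn ι S u v m hF
  have hnpos : (0 : ℝ) < n := by exact_mod_cast hn
  have hCC : C ≤ C1 := by
    refine le_trans ?_ hC1
    have : C ^ 1 ≤ C ^ 6 := Nat.pow_le_pow_right (by omega) (by norm_num)
    rw [pow_one] at this
    omega
  have mono : ∀ (x : ℤ) (i : ℕ), |x| ≤ (C : ℤ) * n ^ i → |x| ≤ (C1 : ℤ) * n ^ i := by
    intro x i hx
    exact fin_bmono (by positivity) hx (by exact_mod_cast hCC)
  have mono' : ∀ (x : ℤ) (i : ℕ), |x| ≤ ((200000 * C ^ 6 : ℕ) : ℤ) * n ^ i →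
      |x| ≤ (C1 : ℤ) * n ^ i := by
    intro x i hx
    exact fin_bmono (by positivity) hx (by exact_mod_cast hC1)
  have hsum : ∑ t ∈ FF n S, (Ipt C1 n (fA (kk t.1) (pp t.1) (u t.2) (v t.2) (m t.2))
      (fB (kk t.1) (pp t.1) (u t.2) (v t.2) (m t.2)) : ℝ) =
      ∑ s ∈ S, ∑ a ∈ Finset.range n, ∑ b ∈ Finset.range (n ^ 2),
        (Ipt C1 n (fA (kk (a, b)) (pp (a, b)) (u s) (v s) (m s))
          (fB (kk (a, b)) (pp (a, b)) (u s) (v s) (m s)) : ℝ) := by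
    unfold FF
    rw [Finset.sum_product_right]
    apply Finset.sum_congr rfl
    intro s _
    rw [Finset.sum_product]
  rw [hsum]
  have hin : ∀ s ∈ S, ∀ a ∈ Finset.range n, ∑ b ∈ Finset.range (n ^ 2),
        (Ipt C1 n (fA (kk (a, b)) (pp (a, b)) (u s) (v s) (m s))
          (fB (kk (a, b)) (pp (a, b)) (u s) (v s) (m s)) : ℝ) ≤ D * (n : ℝ) ^ (2 + ε) := by
    intro s hs a ha
    have hmem : ((a, 0), s) ∈ FF n S := by
      unfold FF
      rw [Finset.mem_product, Finset.mem_product]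
      exact ⟨⟨ha, Finset.mem_range.2 (by positivity)⟩, hs⟩
    obtain ⟨z1, z2, z3, _⟩ := fin_sz hC hF _ hmem
    have zk := (fin_kp hC _ hmem).1
    have hinj : ∀ x ∈ Finset.range (n ^ 2), ∀ y ∈ Finset.range (n ^ 2),
        (fun b : ℕ => pp (a, b)) x = (fun b : ℕ => pp (a, b)) y → x = y := by
      intro x _ y _ hxy
      simp only [pp, MM] at hxy
      have : (x : ℤ) = y := by linarith
      exact_mod_cast this
    have h1 := h0 n hn (kk (a, 0)) (e2f (u s) (v s) (m s)) (e3f (u s) (v s) (m s))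
      (e4f (u s) (v s) (m s)) (by simpa using mono _ 1 zk) (mono' _ _ z1) (mono' _ _ z2)
      (mono' _ _ z3) ((Finset.range (n ^ 2)).image (fun b : ℕ => pp (a, b))) (by
        intro p hp
        rw [Finset.mem_image] at hp
        obtain ⟨b, hb, rfl⟩ := hp
        have hmem' : ((a, b), s) ∈ FF n S := by
          unfold FF
          rw [Finset.mem_product, Finset.mem_product]
          exact ⟨⟨ha, hb⟩, hs⟩
        exact mono _ 2 (fin_kp hC _ hmem').2)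
    rw [Finset.sum_image hinj] at h1
    exact h1
  calc _ ≤ ∑ s ∈ S, ∑ a ∈ Finset.range n, D * (n : ℝ) ^ (2 + ε) :=
        Finset.sum_le_sum (fun s hs => Finset.sum_le_sum (fun a ha => hin s hs a ha))
    _ = S.card * (n * (D * (n : ℝ) ^ (2 + ε))) := by
        rw [Finset.sum_const, Finset.sum_const, Finset.card_range, nsmul_eq_mul, nsmul_eq_mul]
    _ = D * (n : ℝ) ^ ε * (FF n S).card := by
        rw [fin_ff, Real.rpow_add hnpos]
        push_cast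
        have : (n : ℝ) ^ (2 : ℝ) = (n : ℝ) ^ 2 := by
          rw [← Real.rpow_natCast]
          norm_num
        rw [this]
        ring

end Pool.Agent.Helper97.RK
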