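import Mathlib
import Pool.Agent.Helper97.RK.Fin3

/-! The counting step. -/

set_option autoImplicit false

namespace Pool.Agent.Helper97.RK

open Classical in
/-- many curves -/
theorem fin_main (hc : ST_CERT) (he : ST_EXTRA) (hs : ST_SIEVE) (hm : ST_MULT) (hpts : ST_PTS)
    (r C : ℕ) (hC : 223092880 ≤ C) : ∃ C' : ℕ, 1 ≤ C' ∧ ∀ ε : ℝ, 0 < ε → ∃ D : ℝ, 0 < D ∧
    ∃ n0 : ℕ, ∀ n : ℕ, n0 ≤ n → ∀ (ι : Type) (S : Finset ι) (u v m : ι → ℤ),
    FH r C n ι S u v m →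
    (n : ℝ) ^ 3 * S.card ≤ D * (n : ℝ) ^ ε * ((NS r ((C' * n ^ 12 : ℕ) : ℝ)).ncard : ℝ) := by
  set C1 : ℕ := 200000 * C ^ 6 with hC1
  have hC1p : 1 ≤ C1 := by
    have : 1 ≤ C ^ 6 := Nat.one_le_pow _ _ (by omega)
    omega
  refine ⟨27 * C1 ^ 3, Nat.mul_pos (by norm_num) (Nat.pow_pos hC1p), ?_⟩
  intro ε hε
  obtain ⟨D, hD, hav⟩ := fin_avg he r C C1 hC le_rfl (ε / 3) (by positivity)
  obtain ⟨n0, hbad⟩ := fin_bad hs C1
  refine ⟨4 * (4 * D) ^ 3, by positivity, max n0 1, ?_⟩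
  intro n hn ι S u v m hF
  have hn0 : n0 ≤ n := (le_max_left _ _).trans hn
  have hn1 : 1 ≤ n := (le_max_right _ _).trans hn
  have hnpos : (0 : ℝ) < n := by exact_mod_cast hn1
  set F := FF n S with hFdef
  set cu : (ℕ × ℕ) × ι → ℤ × ℤ := fun t =>
    (fA (kk t.1) (pp t.1) (u t.2) (v t.2) (m t.2), fB (kk t.1) (pp t.1) (u t.2) (v t.2) (m t.2))
    with hcu
  set Bd : (ℕ × ℕ) × ι → Prop := fun t => ∃ q : ℕ, q.Prime ∧ 29 ≤ q ∧ q ≤ C1 * n ∧
      (q : ℤ) ^ 2 ∣ fA (kk t.1) (pp t.1) (u t.2) (v t.2) (m t.2) with hBd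
  set L : ℝ := 4 * D * (n : ℝ) ^ (ε / 3) with hL
  have hLpos : 0 < L := by positivity
  have h1 : 2 * (F.filter Bd).card ≤ F.card := hbad n hn0 ι S u v m
  have h2 : ∑ t ∈ F, (Ipt C1 n (cu t).1 (cu t).2 : ℝ) ≤ D * (n : ℝ) ^ (ε / 3) * F.card :=
    hav n hn1 ι S u v m hF
  set Rh : (ℕ × ℕ) × ι → Prop := fun t => L < (Ipt C1 n (cu t).1 (cu t).2 : ℝ) with hRh
  have h3 : L * (F.filter Rh).card ≤ D * (n : ℝ) ^ (ε / 3) * F.card := by
    refine le_trans ?_ h2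
    calc L * (F.filter Rh).card = ∑ _t ∈ F.filter Rh, L := by
          rw [Finset.sum_const, nsmul_eq_mul, mul_comm]
      _ ≤ ∑ t ∈ F.filter Rh, (Ipt C1 n (cu t).1 (cu t).2 : ℝ) :=
          Finset.sum_le_sum (fun t ht => (Finset.mem_filter.1 ht).2.le)
      _ ≤ ∑ t ∈ F, (Ipt C1 n (cu t).1 (cu t).2 : ℝ) :=
          Finset.sum_le_sum_of_subset_of_nonneg (Finset.filter_subset _ _)
            (fun t _ _ => Nat.cast_nonneg _)
  have h4 : ((F.filter Rh).card : ℝ) ≤ F.card / 4 := by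
    have e : L * (F.filter Rh).card ≤ L * ((F.card : ℝ) / 4) := by
      refine h3.trans (le_of_eq ?_)
      rw [hL]
      ring
    exact le_of_mul_le_mul_left e hLpos
  set G := F.filter (fun t => ¬ Bd t ∧ ¬ Rh t) with hG
  have h5 : F.card ≤ G.card + ((F.filter Bd).card + (F.filter Rh).card) := by
    refine le_trans (Finset.card_le_card ?_) ((Finset.card_union_le _ _).trans
      (Nat.add_le_add_left (Finset.card_union_le _ _) _))
    intro t ht
    rw [Finset.mem_union, Finset.mem_union, hG, Finset.mem_filter, Finset.mem_filter,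
      Finset.mem_filter]
    by_cases hb : Bd t
    · exact Or.inr (Or.inl ⟨ht, hb⟩)
    · by_cases hr : Rh t
      · exact Or.inr (Or.inr ⟨ht, hr⟩)
      · exact Or.inl ⟨ht, hb, hr⟩
  have h6 : (F.card : ℝ) / 4 ≤ G.card := by
    have a1 : (2 : ℝ) * (F.filter Bd).card ≤ F.card := by exact_mod_cast h1
    have a2 : (F.card : ℝ) ≤ G.card + ((F.filter Bd).card + (F.filter Rh).card) := by
      exact_mod_cast h5
    linarith
  -- fibres
  have h7 : G.card ≤ ⌊L⌋₊ ^ 3 * (G.image cu).card := by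
    apply Finset.card_le_mul_card_image
    intro b hb
    obtain ⟨t0, ht0, rfl⟩ := Finset.mem_image.1 hb
    have hI : Ipt C1 n (cu t0).1 (cu t0).2 ≤ ⌊L⌋₊ := by
      apply Nat.le_floor
      exact not_lt.1 (Finset.mem_filter.1 ht0).2.2
    refine le_trans ?_ (Nat.pow_le_pow_left hI 3)
    apply fin_fib hm hpts C1 n _ (G.filter (fun t => cu t = cu t0)) (fun t => kk t.1)
      (fun t => pp t.1) (fun t => u t.2) (fun t => v t.2) (fun t => m t.2)
    · intro t ht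
      exact fin_good hF t (Finset.mem_filter.1 (Finset.mem_filter.1 ht).1).1
    · intro t ht
      exact congrArg Prod.fst (Finset.mem_filter.1 ht).2
    · intro t ht
      exact congrArg Prod.snd (Finset.mem_filter.1 ht).2
    · intro t ht t' ht' ek ep eu ev em
      have m1 := Finset.mem_product.1 (Finset.mem_filter.1 (Finset.mem_filter.1 ht).1).1
      have m2 := Finset.mem_product.1 (Finset.mem_filter.1 (Finset.mem_filter.1 ht').1).1
      have e2 := hF.inj _ m1.2 _ m2.2 eu ev em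
      have e0 : t.1.1 = t'.1.1 := by
        simp only [kk, MM] at ek
        have : (t.1.1 : ℤ) = t'.1.1 := by linarith
        exact_mod_cast this
      have e1 : t.1.2 = t'.1.2 := by
        simp only [pp, MM] at ep
        have : (t.1.2 : ℤ) = t'.1.2 := by linarith
        exact_mod_cast this
      exact Prod.ext (Prod.ext e0 e1) e2
    · intro t ht
      obtain ⟨_, _, _, _, _, z6, z7, z8⟩ := fin_sz hC hF t
        (Finset.mem_filter.1 (Finset.mem_filter.1 ht).1).1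
      exact ⟨z6, z7, z8⟩
  have h8 : ((G.image cu).card : ℝ) ≤ ((NS r ((27 * C1 ^ 3 * n ^ 12 : ℕ) : ℝ)).ncard : ℝ) := by
    have : (G.image cu).card ≤ (NS r ((27 * C1 ^ 3 * n ^ 12 : ℕ) : ℝ)).ncard := by
      rw [← Set.ncard_coe_finset]
      apply Set.ncard_le_ncard _ (fin_nsfin _ _)
      intro b hb
      obtain ⟨t, ht, rfl⟩ := Finset.mem_image.1 (Finset.mem_coe.1 hb)
      obtain ⟨tF, tb, _⟩ := Finset.mem_filter.1 ht
      obtain ⟨_, _, _, z4, z5, _, _, _⟩ := fin_sz hC hF t tF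
      have g := fin_good hF t tF
      exact fin_mem hc r C1 n hn1 hC1p _ _ _ _ _ g z4 z5
        (hF.rk _ (Finset.mem_product.1 tF).2 _ _ g.1 g.2.1) tb
    exact_mod_cast this
  have h9 : (G.card : ℝ) ≤ L ^ 3 * ((NS r ((27 * C1 ^ 3 * n ^ 12 : ℕ) : ℝ)).ncard : ℝ) := by
    have a1 : (G.card : ℝ) ≤ ((⌊L⌋₊ : ℕ) : ℝ) ^ 3 * (G.image cu).card := by exact_mod_cast h7
    refine a1.trans ?_
    apply mul_le_mul _ h8 (Nat.cast_nonneg _) (by positivity)
    exact pow_le_pow_left₀ (Nat.cast_nonneg _) (Nat.floor_le hLpos.le) 3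
  have h10 : (n : ℝ) ^ 3 * S.card = F.card := by
    rw [hFdef, fin_ff]
    push_cast
    ring
  have h11 : L ^ 3 = (4 * D) ^ 3 * (n : ℝ) ^ ε := by
    rw [hL, mul_pow, ← Real.rpow_natCast ((n : ℝ) ^ (ε / 3)) 3, ← Real.rpow_mul hnpos.le]
    congr 2
    push_cast
    ring
  rw [h10]
  have h12 : (F.card : ℝ) ≤ 4 * G.card := by linarith
  calc (F.card : ℝ) ≤ 4 * G.card := h12
    _ ≤ 4 * (L ^ 3 * ((NS r ((27 * C1 ^ 3 * n ^ 12 : ℕ) : ℝ)).ncard : ℝ)) := by linarith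
    _ = _ := by rw [h11]; ring

end Pool.Agent.Helper97.RK
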