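import Mathlib
import Pool.Agent.Helper97.RK.Fin4

/-! The two families and all heights. -/

set_option autoImplicit false

namespace Pool.Agent.Helper97.RK

/-- the constant -/
def C4 : ℕ := 3 * 223092880 ^ 2

theorem fin_c4 : 223092880 ≤ C4 := by
  unfold C4
  norm_num

theorem fin_b1 {n a : ℕ} (ha : a < n) {c : ℤ} (hc : 0 ≤ c) (hc3 : c ≤ 3) :
    0 < c + MM * a + 1 ∧ c + MM * a ≤ 223092880 * (n : ℤ) := by
  have h1 : (a : ℤ) + 1 ≤ n := by exact_mod_cast ha
  have h2 : (0 : ℤ) ≤ a := by positivity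
  unfold MM
  constructor
  · positivity
  · linarith

theorem fin_fam3 (hc : ST_CERT) (n : ℕ) : FH 3 C4 n (ℕ × ℕ × ℕ)
    (Finset.range n ×ˢ Finset.range n ×ˢ Finset.range (n ^ 2)) (fun s => 1 + MM * s.1)
    (fun s => 2 + MM * s.2.1) (fun s => -18 + MM * s.2.2) where
  hu := fun s _ => ⟨s.1, by ring⟩
  hv := fun s _ => ⟨s.2.1, by ring⟩
  hm := fun s _ => ⟨s.2.2, by ring⟩
  bu := by
    intro s hs
    rw [Finset.mem_product, Finset.mem_range] at hs
    obtain ⟨h1, h2⟩ := fin_b1 hs.1 (c := 1) (by norm_num) (by norm_num)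
    have h0 : (0 : ℤ) ≤ n := by positivity
    simp only [C4, pow_one]
    rw [abs_of_nonneg (by linarith)]
    push_cast
    linarith
  bv := by
    intro s hs
    rw [Finset.mem_product, Finset.mem_product, Finset.mem_range, Finset.mem_range] at hs
    obtain ⟨h1, h2⟩ := fin_b1 hs.2.1 (c := 2) (by norm_num) (by norm_num)
    have h0 : (0 : ℤ) ≤ n := by positivity
    simp only [C4, pow_one]
    rw [abs_of_nonneg (by linarith)]
    push_cast
    linarith
  bm := by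
    intro s hs
    rw [Finset.mem_product, Finset.mem_product, Finset.mem_range, Finset.mem_range,
      Finset.mem_range] at hs
    have h1 : (s.2.2 : ℤ) + 1 ≤ (n : ℤ) ^ 2 := by exact_mod_cast hs.2.2
    have h2 : (0 : ℤ) ≤ s.2.2 := by positivity
    simp only [C4, MM]
    rw [abs_le]
    push_cast
    constructor <;> linarith
  inj := by
    intro s _ s' _ h1 h2 h3
    simp only [MM] at h1 h2 h3
    have a1 : (s.1 : ℤ) = s'.1 := by linarith
    have a2 : (s.2.1 : ℤ) = s'.2.1 := by linarith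
    have a3 : (s.2.2 : ℤ) = s'.2.2 := by linarith
    exact Prod.ext (by exact_mod_cast a1) (Prod.ext (by exact_mod_cast a2) (by exact_mod_cast a3))
  rk := by
    intro s _ k p hk hp
    exact (hc k p _ _ _ ⟨hk, hp, ⟨s.1, by ring⟩, ⟨s.2.1, by ring⟩, ⟨s.2.2, by ring⟩⟩).2.2.2.1

theorem fin_fam4 (hc : ST_CERT) (n : ℕ) : FH 4 C4 n (ℕ × ℕ × ℕ)
    (Finset.range n ×ˢ Finset.range n ×ˢ Finset.range n) (fun s => 1 + MM * s.1)
    (fun s => 2 + MM * s.2.1) (fun s => -((3 + MM * s.2.2) *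
      ((1 + MM * s.1) + (2 + MM * s.2.1) + (3 + MM * s.2.2)))) where
  hu := fun s _ => ⟨s.1, by ring⟩
  hv := fun s _ => ⟨s.2.1, by ring⟩
  hm := fun s _ => ⟨-(6 * s.2.2 + (3 + MM * s.2.2) * (s.1 + s.2.1 + s.2.2)), by ring⟩
  bu := by
    intro s hs
    rw [Finset.mem_product, Finset.mem_range] at hs
    obtain ⟨h1, h2⟩ := fin_b1 hs.1 (c := 1) (by norm_num) (by norm_num)
    have h0 : (0 : ℤ) ≤ n := by positivity
    simp only [C4, pow_one]
    rw [abs_of_nonneg (by linarith)]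
    push_cast
    linarith
  bv := by
    intro s hs
    rw [Finset.mem_product, Finset.mem_product, Finset.mem_range, Finset.mem_range] at hs
    obtain ⟨h1, h2⟩ := fin_b1 hs.2.1 (c := 2) (by norm_num) (by norm_num)
    have h0 : (0 : ℤ) ≤ n := by positivity
    simp only [C4, pow_one]
    rw [abs_of_nonneg (by linarith)]
    push_cast
    linarith
  bm := by
    intro s hs
    rw [Finset.mem_product, Finset.mem_product, Finset.mem_range, Finset.mem_range,
      Finset.mem_range] at hs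
    obtain ⟨h1, h2⟩ := fin_b1 hs.1 (c := 1) (by norm_num) (by norm_num)
    obtain ⟨h3, h4⟩ := fin_b1 hs.2.1 (c := 2) (by norm_num) (by norm_num)
    obtain ⟨h5, h6⟩ := fin_b1 hs.2.2 (c := 3) (by norm_num) (by norm_num)
    have h0 : (0 : ℤ) ≤ n := by positivity
    have k1 : 0 ≤ (1 : ℤ) + MM * s.1 := by linarith
    have k2 : 0 ≤ (2 : ℤ) + MM * s.2.1 := by linarith
    have k3 : 0 ≤ (3 : ℤ) + MM * s.2.2 := by linarith
    generalize (1 : ℤ) + MM * s.1 = x at *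
    generalize (2 : ℤ) + MM * s.2.1 = y at *
    generalize (3 : ℤ) + MM * s.2.2 = z at *
    rw [abs_neg, abs_of_nonneg (mul_nonneg k3 (by linarith))]
    have h7 : z * (x + y + z) ≤ (223092880 * (n : ℤ)) * (3 * (223092880 * (n : ℤ))) :=
      mul_le_mul h6 (by linarith) (by linarith) (by linarith)
    simp only [C4]
    push_cast
    linarith
  inj := by
    intro s _ s' _ h1 h2 h3
    have e1 : (1 : ℤ) + MM * s.1 = 1 + MM * s'.1 := h1
    have e2 : (2 : ℤ) + MM * s.2.1 = 2 + MM * s'.2.1 := h2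
    have e3 : -(((3 : ℤ) + MM * s.2.2) * ((1 + MM * s.1) + (2 + MM * s.2.1) + (3 + MM * s.2.2))) =
      -(((3 : ℤ) + MM * s'.2.2) *
        ((1 + MM * s'.1) + (2 + MM * s'.2.1) + (3 + MM * s'.2.2))) := h3
    rw [← e1, ← e2] at e3
    have q1 : (0 : ℤ) ≤ MM * s.1 := by unfold MM; positivity
    have q2 : (0 : ℤ) ≤ MM * s.2.1 := by unfold MM; positivity
    have q3 : (0 : ℤ) ≤ MM * s.2.2 := by unfold MM; positivity
    have q4 : (0 : ℤ) ≤ MM * s'.2.2 := by unfold MM; positivity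
    have e4 : (MM * s.2.2 - MM * s'.2.2 : ℤ) * ((1 + MM * s.1) + (2 + MM * s.2.1) +
        (3 + MM * s.2.2) + (3 + MM * s'.2.2)) = 0 := by linear_combination -e3
    have e5 : (MM * s.2.2 - MM * s'.2.2 : ℤ) = 0 := by
      rcases mul_eq_zero.1 e4 with h | h
      · exact h
      · exfalso
        linarith
    simp only [MM] at e1 e2 e5
    have a1 : (s.1 : ℤ) = s'.1 := by linarith
    have a2 : (s.2.1 : ℤ) = s'.2.1 := by linarith
    have a3 : (s.2.2 : ℤ) = s'.2.2 := by linarith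
    exact Prod.ext (by exact_mod_cast a1) (Prod.ext (by exact_mod_cast a2) (by exact_mod_cast a3))
  rk := by
    intro s _ k p hk hp
    exact (hc k p _ _ _ ⟨hk, hp, ⟨s.1, by ring⟩, ⟨s.2.1, by ring⟩,
      ⟨-(6 * s.2.2 + (3 + MM * s.2.2) * (s.1 + s.2.1 + s.2.2)), by ring⟩⟩).2.2.2.2
      (3 + MM * s.2.2) ⟨s.2.2, by ring⟩ rfl

/-- from `n` to `H` -/
theorem fin_H (r : ℕ) (hr : r ≤ 10) (C' : ℕ) (hC : 1 ≤ C') (h : ∀ ε : ℝ, 0 < ε → ∃ D : ℝ, 0 < D ∧
    ∃ n0 : ℕ, ∀ n : ℕ, n0 ≤ n →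
    (n : ℝ) ^ (10 - r) ≤ D * (n : ℝ) ^ ε * ((NS r ((C' * n ^ 12 : ℕ) : ℝ)).ncard : ℝ)) :
    ∀ ε : ℝ, 0 < ε → ∃ H0 : ℝ, ∀ H : ℝ, H0 ≤ H →
      H ^ ((10 - (r : ℝ)) / 12 - ε) ≤ ((NS r H).ncard : ℝ) := by
  intro ε hε
  obtain ⟨D, hD, n0, h0⟩ := h (6 * ε) (by positivity)
  have hC0 : (0 : ℝ) < C' := by exact_mod_cast hC
  have hC1 : (1 : ℝ) ≤ C' := by exact_mod_cast hC
  set a : ℝ := (10 - (r : ℝ)) / 12 with ha
  set K : ℝ := D * 2 ^ (10 - r) * (C' : ℝ) ^ a with hK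
  have hKpos : 0 < K := by positivity
  refine ⟨max (C' * ((n0 : ℝ) + 2) ^ 12) (K ^ (2 / ε)), ?_⟩
  intro H hH
  have hH1 : C' * ((n0 : ℝ) + 2) ^ 12 ≤ H := (le_max_left _ _).trans hH
  have hH2 : K ^ (2 / ε) ≤ H := (le_max_right _ _).trans hH
  have hH0 : 0 < H := lt_of_lt_of_le (by positivity) hH1
  have hHC : 0 < H / C' := by positivity
  set x : ℝ := (H / C') ^ ((1 : ℝ) / 12) with hx
  have hx0 : 0 < x := Real.rpow_pos_of_pos hHC _
  have hx12 : x ^ 12 = H / C' := by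
    rw [hx, ← Real.rpow_natCast, ← Real.rpow_mul hHC.le]
    norm_num
  have hxm : (n0 : ℝ) + 2 ≤ x := by
    by_contra hcon
    push Not at hcon
    have h1 : x ^ 12 < ((n0 : ℝ) + 2) ^ 12 := pow_lt_pow_left₀ hcon hx0.le (by norm_num)
    rw [hx12, div_lt_iff₀ hC0] at h1
    linarith
  have hfl := Nat.floor_le hx0.le
  have hfl2 := Nat.lt_floor_add_one x
  set n := ⌊x⌋₊ with hnd
  have hn0r : (0 : ℝ) ≤ n0 := Nat.cast_nonneg n0
  have hnn : n0 ≤ n := by
    apply Nat.le_floor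
    linarith
  have hnpos : (0 : ℝ) < n := by linarith
  have h2 := h0 n hnn
  have h3 : ((C' * n ^ 12 : ℕ) : ℝ) ≤ H := by
    have h4 : (n : ℝ) ^ 12 ≤ x ^ 12 := pow_le_pow_left₀ (Nat.cast_nonneg n) hfl 12
    rw [hx12] at h4
    push_cast
    calc (C' : ℝ) * (n : ℝ) ^ 12 ≤ C' * (H / C') := mul_le_mul_of_nonneg_left h4 hC0.le
      _ = H := by field_simp
  have h4 : ((NS r ((C' * n ^ 12 : ℕ) : ℝ)).ncard : ℝ) ≤ ((NS r H).ncard : ℝ) := by
    exact_mod_cast Set.ncard_le_ncard (fin_nsmono _ _ _ h3) (fin_nsfin r H)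
  set Nn : ℝ := ((NS r H).ncard : ℝ) with hNn
  have hNn0 : 0 ≤ Nn := Nat.cast_nonneg _
  have h5 : x / 2 ≤ (n : ℝ) := by linarith
  have h6 : (x / 2) ^ (10 - r) ≤ (n : ℝ) ^ (10 - r) := pow_le_pow_left₀ (by positivity) h5 _
  have h7 : (n : ℝ) ^ (6 * ε) ≤ x ^ (6 * ε) := Real.rpow_le_rpow hnpos.le hfl (by positivity)
  have h8 : x ^ (6 * ε) = (H / C') ^ (ε / 2) := by
    rw [hx, ← Real.rpow_mul hHC.le]
    congr 1
    ring
  have h9 : (H / C') ^ (ε / 2) ≤ H ^ (ε / 2) := by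
    apply Real.rpow_le_rpow hHC.le _ (by positivity)
    exact div_le_self hH0.le hC1
  have h10 : x ^ (10 - r) = H ^ a / (C' : ℝ) ^ a := by
    rw [hx, ← Real.rpow_natCast, ← Real.rpow_mul hHC.le, ← Real.div_rpow hH0.le hC0.le]
    congr 1
    rw [ha, Nat.cast_sub hr]
    push_cast
    ring
  have h11 : H ^ a / (C' : ℝ) ^ a ≤ D * 2 ^ (10 - r) * H ^ (ε / 2) * Nn := by
    have e1 : x ^ (10 - r) / 2 ^ (10 - r) ≤ D * H ^ (ε / 2) * Nn := by
      rw [← div_pow]
      calc (x / 2) ^ (10 - r) ≤ (n : ℝ) ^ (10 - r) := h6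
        _ ≤ D * (n : ℝ) ^ (6 * ε) * ((NS r ((C' * n ^ 12 : ℕ) : ℝ)).ncard : ℝ) := h2
        _ ≤ D * H ^ (ε / 2) * Nn := by
            apply mul_le_mul _ h4 (Nat.cast_nonneg _) (by positivity)
            apply mul_le_mul_of_nonneg_left _ hD.le
            exact h7.trans (h8.le.trans h9)
    rw [h10, div_le_iff₀ (by positivity)] at e1
    linarith
  have h12 : H ^ a ≤ K * H ^ (ε / 2) * Nn := by
    rw [div_le_iff₀ (by positivity)] at h11
    rw [hK]
    linarith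
  have h13 : K ≤ H ^ (ε / 2) := by
    have := Real.rpow_le_rpow (by positivity) hH2 (show 0 ≤ ε / 2 by positivity)
    rw [← Real.rpow_mul hKpos.le] at this
    have e : 2 / ε * (ε / 2) = 1 := by field_simp
    rw [e, Real.rpow_one] at this
    exact this
  have h14 : H ^ a ≤ H ^ ε * Nn := by
    have e : H ^ ε = H ^ (ε / 2) * H ^ (ε / 2) := by
      rw [← Real.rpow_add hH0]
      congr 1
      ring
    rw [e]
    refine h12.trans ?_
    apply mul_le_mul_of_nonneg_right _ hNn0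
    exact mul_le_mul_of_nonneg_right h13 (by positivity)
  rw [Real.rpow_sub hH0, div_le_iff₀ (by positivity)]
  linarith

theorem st_FIN (hc : ST_CERT) (he : ST_EXTRA) (hs : ST_SIEVE) (hm : ST_MULT) (hpts : ST_PTS) :
    ST_FIN := by
  rintro r (rfl | rfl)
  · obtain ⟨C', hC', h⟩ := fin_main hc he hs hm hpts 3 C4 fin_c4
    apply fin_H 3 (by norm_num) C' hC'
    intro ε hε
    obtain ⟨D, hD, n0, h0⟩ := h ε hε
    refine ⟨D, hD, n0, ?_⟩
    intro n hn
    have h1 := h0 n hn _ _ _ _ _ (fin_fam3 hc n)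
    refine le_trans (le_of_eq ?_) h1
    rw [Finset.card_product, Finset.card_product, Finset.card_range, Finset.card_range]
    push_cast
    ring
  · obtain ⟨C', hC', h⟩ := fin_main hc he hs hm hpts 4 C4 fin_c4
    apply fin_H 4 (by norm_num) C' hC'
    intro ε hε
    obtain ⟨D, hD, n0, h0⟩ := h ε hε
    refine ⟨D, hD, n0, ?_⟩
    intro n hn
    have h1 := h0 n hn _ _ _ _ _ (fin_fam4 hc n)
    refine le_trans (le_of_eq ?_) h1
    rw [Finset.card_product, Finset.card_product, Finset.card_range]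
    push_cast
    ring

end Pool.Agent.Helper97.RK
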